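import Pool.Agent.H.MP_49e1f6_an.C

namespace Pool.Agent.Results.MP_49e1f6_an.No

open MeasureTheory
open scoped ENNReal

noncomputable def cantorMeasure : Measure ℝ :=
  (Measure.infinitePi fun _ : ℕ =>
      ((2⁻¹ : ℝ≥0∞) • Measure.dirac false + (2⁻¹ : ℝ≥0∞) • Measure.dirac true : Measure Bool)).map
    fun x : ℕ → Bool => ∑' n : ℕ, (if x n then (2 : ℝ) else 0) / 3 ^ (n + 1)

theorem result : IsProbabilityMeasure cantorMeasure ∧
    ∃ X : Set ℝ, 0 < volume X ∧ ∀ t : ℝ, cantorMeasure ((fun x => x + t) '' X) = 0 := by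
  have e : cantorMeasure = H.MP_49e1f6_an.PP.map H.MP_49e1f6_an.phi := rfl
  rw [e]
  obtain ⟨X, h1, h2⟩ := H.MP_49e1f6_an.main
  exact ⟨Measure.isProbabilityMeasure_map H.MP_49e1f6_an.phi_meas.aemeasurable,
    X, pos_iff_ne_zero.mpr h1, h2⟩

end Pool.Agent.Results.MP_49e1f6_an.No
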